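import Pool.Agent.H104.ML.Stm

/-!
# Project ML, job PARS: the volume bound from Parseval's identity
-/

set_option autoImplicit false

open Polynomial Finset MeasureTheory

namespace Pool.Agent.Q121.ML

open Pool.Agent.H104.ML

/-- `E u = exp (2 π i u)` -/
noncomputable def E (u : ℝ) : ℂ := Complex.exp (((2 * Real.pi * u : ℝ) : ℂ) * Complex.I)

theorem E_zero : E 0 = 1 := by simp [E]

theorem E_add (u v : ℝ) : E (u + v) = E u * E v := by
  unfold E
  rw [← Complex.exp_add]
  congr 1
  push_cast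
  ring

theorem E_sum {ι : Type*} (s : Finset ι) (g : ι → ℝ) : E (∑ i ∈ s, g i) = ∏ i ∈ s, E (g i) := by
  classical
  induction s using Finset.induction_on with
  | empty => simp [E_zero]
  | insert a s ha ih => rw [sum_insert ha, prod_insert ha, E_add, ih]

theorem E_conj (u : ℝ) : (starRingEnd ℂ) (E u) = E (-u) := by
  unfold E
  rw [← Complex.exp_conj]
  congr 1
  rw [map_mul, Complex.conj_I, Complex.conj_ofReal]
  push_cast
  ring

theorem norm_E (u : ℝ) : ‖E u‖ = 1 := by
  unfold E
  exact Complex.norm_exp_ofReal_mul_I _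

theorem continuous_E : Continuous E := by
  unfold E
  fun_prop

theorem le_norm_one_add (u : ℝ) (hu : |u| ≤ 1 / 8) : (17 / 5 : ℝ) ≤ ‖1 + E u‖ ^ 2 := by
  have h1 : ‖1 + E u‖ ^ 2 = 2 + 2 * Real.cos (2 * Real.pi * u) := by
    rw [← Complex.normSq_eq_norm_sq]
    unfold E
    rw [Complex.normSq_apply, Complex.add_re, Complex.add_im, Complex.exp_ofReal_mul_I_re,
      Complex.exp_ofReal_mul_I_im, Complex.one_re, Complex.one_im]
    nlinarith [Real.sin_sq_add_cos_sq (2 * Real.pi * u)]
  have hpi := Real.pi_pos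
  have h2 : √2 / 2 ≤ Real.cos (2 * Real.pi * u) := by
    rw [← Real.cos_pi_div_four, ← Real.cos_abs (2 * Real.pi * u)]
    apply Real.cos_le_cos_of_nonneg_of_le_pi (abs_nonneg _) (by linarith)
    rw [abs_mul, abs_of_pos (by positivity : (0 : ℝ) < 2 * Real.pi)]
    nlinarith
  have h3 : (1.4 : ℝ) ≤ √2 := by
    rw [show (1.4 : ℝ) = √(1.4 ^ 2) by rw [Real.sqrt_sq (by norm_num)]]
    exact Real.sqrt_le_sqrt (by norm_num)
  rw [h1]
  linarith

theorem int_E (k : ℤ) : ∫ t in Set.Icc (-(1 / 2) : ℝ) (1 / 2), E (t * k) = if k = 0 then 1 else 0 := by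
  rw [integral_Icc_eq_integral_Ioc, ← intervalIntegral.integral_of_le (by norm_num)]
  split_ifs with h
  · simp only [h, Int.cast_zero, mul_zero, E_zero, intervalIntegral.integral_const]
    norm_num
  · have hc : (2 * (Real.pi : ℂ) * k * Complex.I : ℂ) ≠ 0 := by
      have h1 : (k : ℂ) ≠ 0 := by exact_mod_cast h
      have h2 : (Real.pi : ℂ) ≠ 0 := by exact_mod_cast Real.pi_ne_zero
      simp [h1, h2, Complex.I_ne_zero]
    have h3 : ∀ t : ℝ, E (t * k) = Complex.exp ((2 * (Real.pi : ℂ) * k * Complex.I) * t) := by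
      intro t
      unfold E
      congr 1
      push_cast
      ring
    simp_rw [h3]
    rw [integral_exp_mul_complex hc]
    have h4 : Complex.exp ((2 * (Real.pi : ℂ) * k * Complex.I) * ((1 / 2 : ℝ) : ℂ)) =
        Complex.exp ((2 * (Real.pi : ℂ) * k * Complex.I) * ((-(1 / 2) : ℝ) : ℂ)) := by
      rw [Complex.exp_eq_exp_iff_exists_int]
      exact ⟨k, by push_cast; ring⟩
    rw [h4, sub_self, zero_div]

/-- Lebesgue measure on the cube -/
noncomputable def nu (D : ℕ) : Measure (Fin D → ℝ) :=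
  Measure.pi fun _ : Fin D => volume.restrict (Set.Icc (-(1 / 2) : ℝ) (1 / 2))

instance (D : ℕ) : IsFiniteMeasure (nu D) := by
  unfold nu
  infer_instance

theorem int_pi (D : ℕ) (k : Fin D → ℤ) : ∫ θ, E (∑ i, θ i * k i) ∂(nu D) = if k = 0 then 1 else 0 := by
  simp_rw [E_sum]
  unfold nu
  rw [integral_fintype_prod_eq_prod (fun i t => E (t * k i))]
  simp_rw [int_E]
  split_ifs with h
  · simp [h]
  · obtain ⟨i, hi⟩ : ∃ i, k i ≠ 0 := by
      by_contra hcon
      push Not at hcon
      exact h (funext hcon)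
    exact prod_eq_zero (mem_univ i) (by simp [hi])

theorem nu_eq (D : ℕ) (Ω : Set (Fin D → ℝ)) (hΩ : MeasurableSet Ω)
    (h : ∀ θ ∈ Ω, ∀ i, |θ i| ≤ 1 / 2) : nu D Ω = volume Ω := by
  unfold nu
  rw [← Measure.restrict_pi_pi, ← volume_pi, Measure.restrict_apply hΩ]
  congr 1
  apply Set.inter_eq_left.mpr
  intro θ hθ i _
  exact abs_le.mp (h θ hθ i)

theorem t_PARS : S_PARS := by
  intro D n A hA Ω hΩm hΩ
  -- the two forms of the function
  set u : (Fin D → ℝ) → Fin n → ℝ := fun θ j => ∑ i, θ i * (A i j : ℝ) with hu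
  set f : (Fin D → ℝ) → ℂ := fun θ => ∏ j, (1 + E (u θ j)) with hf
  set k : (Fin n → Fin 2) → (Fin n → Fin 2) → Fin D → ℤ := fun x x' i =>
    ∑ j, A i j * (((x j : Fin 2) : ℕ) : ℤ) - ∑ j, A i j * (((x' j : Fin 2) : ℕ) : ℤ) with hk
  have hsum : ∀ θ, f θ = ∑ x : Fin n → Fin 2, E (∑ j, (((x j : Fin 2) : ℕ) : ℝ) * u θ j) := by
    intro θ
    have h1 : ∀ j, (1 + E (u θ j)) = ∑ y ∈ (univ : Finset (Fin 2)), E (((y : ℕ) : ℝ) * u θ j) := by
      intro j
      rw [Fin.sum_univ_two]
      simp [E_zero]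
    simp only [hf]
    simp_rw [h1]
    rw [prod_univ_sum]
    simp_rw [E_sum]
    apply sum_congr _ (fun _ _ => rfl)
    ext x
    simp
  have hprod : ∀ θ, (((‖f θ‖ ^ 2 : ℝ)) : ℂ) = ∑ x : Fin n → Fin 2, ∑ x' : Fin n → Fin 2,
      E (∑ i, θ i * k x x' i) := by
    intro θ
    have h1 : (((‖f θ‖ ^ 2 : ℝ)) : ℂ) = f θ * (starRingEnd ℂ) (f θ) := by
      rw [Complex.mul_conj, Complex.normSq_eq_norm_sq]
    rw [h1, hsum, map_sum, sum_mul]
    apply sum_congr rfl
    intro x _
    rw [mul_sum]
    apply sum_congr rfl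
    intro x' _
    rw [E_conj, ← E_add]
    congr 1
    simp only [hu, hk]
    push_cast
    simp_rw [mul_sub, mul_sum, sum_sub_distrib]
    rw [← sub_eq_add_neg]
    congr 1
    · rw [sum_comm]
      apply sum_congr rfl
      intro i _
      apply sum_congr rfl
      intro j _
      ring
    · rw [sum_comm]
      apply sum_congr rfl
      intro i _
      apply sum_congr rfl
      intro j _
      ring
  have hcu : ∀ j, Continuous fun θ => u θ j := by
    intro j
    simp only [hu]
    fun_prop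
  have hcf : Continuous f := by
    simp only [hf]
    apply continuous_finsetProd
    intro j _
    exact continuous_const.add (continuous_E.comp (hcu j))
  have hbound : ∀ θ, ‖f θ‖ ≤ 2 ^ n := by
    intro θ
    simp only [hf]
    rw [norm_prod]
    calc ∏ j, ‖1 + E (u θ j)‖ ≤ ∏ _j : Fin n, (2 : ℝ) := by
          apply prod_le_prod (fun _ _ => norm_nonneg _)
          intro j _
          calc ‖1 + E (u θ j)‖ ≤ ‖(1 : ℂ)‖ + ‖E (u θ j)‖ := norm_add_le _ _
            _ = 2 := by rw [norm_E, norm_one]; norm_num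
      _ = 2 ^ n := by simp
  have hint : ∫ θ, ‖f θ‖ ^ 2 ∂(nu D) = 2 ^ n := by
    have h1 : ((∫ θ, ‖f θ‖ ^ 2 ∂(nu D) : ℝ) : ℂ) = ((2 ^ n : ℝ) : ℂ) := by
      rw [← integral_complex_ofReal]
      rw [integral_congr_ae (Filter.Eventually.of_forall fun θ => hprod θ)]
      have hI : ∀ x x', Integrable (fun θ : Fin D → ℝ => E (∑ i, θ i * k x x' i)) (nu D) := by
        intro x x'
        have hcont : Continuous (fun θ : Fin D → ℝ => E (∑ i, θ i * k x x' i)) := by
          apply continuous_E.comp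
          fun_prop
        exact Integrable.of_bound hcont.aestronglyMeasurable 1
          (Filter.Eventually.of_forall fun θ => (norm_E _).le)
      rw [integral_finsetSum _ (fun x _ => integrable_finsetSum _ fun x' _ => hI x x')]
      simp_rw [integral_finsetSum _ (fun x' _ => hI _ x'), int_pi]
      have h2 : ∀ x x', k x x' = 0 ↔ x = x' := by
        intro x x'
        constructor
        · intro h
          apply hA x x'
          intro i
          have := congrFun h i
          simp only [hk, Pi.zero_apply] at this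
          linarith
        · rintro rfl
          ext i
          simp [hk]
      simp_rw [h2]
      simp
    exact_mod_cast h1
  have hge : ∀ θ ∈ Ω, (17 / 5 : ℝ) ^ n ≤ ‖f θ‖ ^ 2 := by
    intro θ hθ
    simp only [hf]
    rw [norm_prod, ← prod_pow]
    calc (17 / 5 : ℝ) ^ n = ∏ _j : Fin n, (17 / 5 : ℝ) := by
          rw [prod_const, card_univ, Fintype.card_fin]
      _ ≤ ∏ j, ‖1 + E (u θ j)‖ ^ 2 := by
          apply prod_le_prod (fun _ _ => by norm_num)
          intro j _
          exact le_norm_one_add _ ((hΩ θ hθ).2 j)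
  have hmark := mul_meas_ge_le_integral_of_nonneg (μ := nu D) (f := fun θ => ‖f θ‖ ^ 2)
    (Filter.Eventually.of_forall fun θ => by positivity)
    (Integrable.of_bound (hcf.norm.pow 2).aestronglyMeasurable ((2 ^ n) ^ 2)
      (Filter.Eventually.of_forall fun θ => by
        rw [Real.norm_of_nonneg (by positivity)]
        exact pow_le_pow_left₀ (norm_nonneg _) (hbound θ) 2))
    ((17 / 5 : ℝ) ^ n)
  rw [hint] at hmark
  refine le_trans ?_ hmark
  apply mul_le_mul_of_nonneg_left _ (by positivity)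
  rw [← nu_eq D Ω hΩm fun θ hθ => (hΩ θ hθ).1]
  exact measureReal_mono (fun θ hθ => hge θ hθ)

end Pool.Agent.Q121.ML
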